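import Pool.Agent.H.MP_9dc182_co.C

set_option autoImplicit false

namespace Pool.Agent.Results.MP_9dc182_co.Div
open Pool.Agent.H.MP_d0305a_co Pool.Agent.H.MP_9dc182_co

theorem main (a b c : ℕ) (ha : 0 < a) (hb : 0 < b) (hc : 0 < c) (g : a.Coprime b)
    (h : c ^ 2 = a ^ 2 + b ^ 2 + a * b) (X : ℝ) (hX : 0 < X) (T : Set ℂ) (E : Equi X T) (N : ℕ)
    (t : Tiles a b c T N) : ∃ m : ℕ, 0 < m ∧ X = m * (a * b) := by
  obtain ⟨k1, h1⟩ := key ha hb hc h (Or.inl rfl) hX E t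
  obtain ⟨k2, h2⟩ := key ha hb hc h (Or.inr rfl) hX E t
  have hz : (c : ℤ) ^ 2 = a ^ 2 + b ^ 2 + a * b := by exact_mod_cast h
  have e : (k2 - k1) * ((b : ℤ) - a) = -(N - k1 - k2) * c := by
    have : (k2 - k1) * ((b : ℝ) - a) = -(N - k1 - k2) * c := by linarith
    exact_mod_cast this
  have co : IsCoprime (c : ℤ) (b - a) := by
    rw [Int.isCoprime_iff_gcd_eq_one]
    by_contra hn
    obtain ⟨p, pp, hp⟩ := Nat.exists_prime_and_dvd hn
    have d1 : (p : ℤ) ∣ c := (Int.natCast_dvd_natCast.2 hp).trans (Int.gcd_dvd_left ..)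
    have d2 : (p : ℤ) ∣ b - a := (Int.natCast_dvd_natCast.2 hp).trans (Int.gcd_dvd_right ..)
    have d3 : (p : ℤ) * p ∣ 3 * (a * b) := by
      rw [show 3 * ((a : ℤ) * b) = c * c - (b - a) * (b - a) by linarith]
      exact dvd_sub (mul_dvd_mul d1 d1) (mul_dvd_mul d2 d2)
    have d4 : p * p ∣ 3 * (a * b) := by exact_mod_cast d3
    have n : ¬ p ∣ a * b := by
      intro d
      have : p ∣ a ∧ p ∣ b := by
        rcases (Nat.Prime.dvd_mul pp).1 d with d | d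
        · refine ⟨d, Int.natCast_dvd_natCast.1 ?_⟩
          simpa using dvd_add d2 (Int.natCast_dvd_natCast.2 d)
        · refine ⟨Int.natCast_dvd_natCast.1 ?_, d⟩
          simpa using dvd_sub (Int.natCast_dvd_natCast.2 d) d2
      exact pp.one_lt.ne' (Nat.eq_one_of_dvd_coprimes g this.1 this.2)
    have p3 := (Nat.prime_dvd_prime_iff_eq pp Nat.prime_three).1
      (((Nat.Prime.dvd_mul pp).1 ((dvd_mul_right p p).trans d4)).resolve_right n)
    subst p3
    exact n (Nat.dvd_of_mul_dvd_mul_left (by norm_num) d4)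
  obtain ⟨s, hs⟩ : (c : ℤ) ∣ k2 - k1 := co.dvd_of_dvd_mul_right ⟨_, by rw [e, mul_comm]⟩
  have c0 : (c : ℤ) ≠ 0 := by exact_mod_cast hc.ne'
  have e2 : (N : ℤ) - k1 - k2 = -s * (b - a) := by
    apply mul_left_cancel₀ c0
    rw [hs] at e; linarith
  have e3 : ((N : ℤ) - 2 * k1) * (b - a + c) = 3 * (s * (a * b)) := by
    rw [show (N : ℤ) - 2 * k1 = c * s - s * (b - a) by linarith]
    linear_combination s * hz
  have e4 : X = s * (a * b) := by
    have : ((N : ℝ) - 2 * k1) * (b - a + c) = 3 * (s * (a * b)) := by exact_mod_cast e3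
    linarith
  have s0 : 0 < s := by
    have : (0 : ℝ) < a * b := by positivity
    have : (0 : ℝ) < s := (mul_pos_iff_of_pos_right this).1 (e4 ▸ hX)
    exact_mod_cast this
  lift s to ℕ using s0.le
  exact ⟨s, by exact_mod_cast s0, by exact_mod_cast e4⟩

theorem result :
    (∀ a b c : ℕ, 0 < a → 0 < b → 0 < c → a.Coprime b → c ^ 2 = a ^ 2 + b ^ 2 + a * b →
      ∀ X : ℝ, 0 < X → (∃ (T : Set ℂ) (N : ℕ), Equi X T ∧ Tiles a b c T N) →
        ∃ m : ℕ, 0 < m ∧ X = m * (a * b)) ∧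
    (∀ X : ℝ, 0 < X → (∃ (T : Set ℂ) (N : ℕ), Equi X T ∧ Tiles 5 16 19 T N) →
      ∃ m : ℕ, 0 < m ∧ X = m * 16) := by
  refine ⟨fun a b c ha hb hc g h X hX ⟨T, N, E, t⟩ => main a b c ha hb hc g h X hX T E N t, ?_⟩
  rintro X hX ⟨T, N, E, t⟩
  obtain ⟨m, m0, e⟩ := main 5 16 19 (by norm_num) (by norm_num) (by norm_num) (by norm_num)
    (by norm_num) X hX T E N (by exact_mod_cast t)
  exact ⟨5 * m, by omega, by rw [e]; push_cast; ring⟩

end Pool.Agent.Results.MP_9dc182_co.Div
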